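import Mathlib

set_option autoImplicit false

/-!
# Descent by a 2-isogeny: the map `x` modulo squares is a homomorphism
-/

namespace Pool.Agent.Y668

open WeierstrassCurve

variable {K : Type*} [Field K]

/-- the curve `y² = x³ + a x² + b x` -/
def Wt (a b : K) : WeierstrassCurve K := ⟨0, a, 0, b, 0⟩

lemma Wt_eqn {a b x y : K} :
    (Wt a b).toAffine.Equation x y ↔ y ^ 2 = x ^ 3 + a * x ^ 2 + b * x := by
  rw [WeierstrassCurve.Affine.equation_iff]
  simp only [Wt]
  constructor <;> intro h <;> linear_combination h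

open Classical in
/-- the class of `x` -/
noncomputable def al (a b : K) : (Wt a b).toAffine.Point → K
  | .zero => 1
  | .some x _ _ => if x = 0 then b else x

lemma al_some (a b x y : K) (h) :
    al a b (Affine.Point.some x y h : (Wt a b).toAffine.Point) =
      open Classical in if x = 0 then b else x := rfl

lemma al_zero (a b : K) : al a b (0 : (Wt a b).toAffine.Point) = 1 := rfl

lemma al_ne {a b : K} (hb : b ≠ 0) (P : (Wt a b).toAffine.Point) : al a b P ≠ 0 := by
  cases P with
  | zero => exact one_ne_zero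
  | some x y h =>
    rw [al_some]
    split_ifs with hx
    · exact hb
    · exact hx

variable [DecidableEq K]

omit [DecidableEq K] in
lemma al_neg {a b : K} (P : (Wt a b).toAffine.Point) : al a b (-P) = al a b P := by
  cases P with
  | zero => rfl
  | some x y h =>
    rw [Affine.Point.neg_some, al_some, al_some]

lemma al_add_some (h2 : (2 : K) ≠ 0) {a b : K} {x1 y1 x2 y2 : K}
    (h1 : (Wt a b).toAffine.Nonsingular x1 y1) (h1' : (Wt a b).toAffine.Nonsingular x2 y2) :
    IsSquare (al a b (Affine.Point.some x1 y1 h1 + Affine.Point.some x2 y2 h1') *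
      (al a b (Affine.Point.some x1 y1 h1) * al a b (Affine.Point.some x2 y2 h1'))) := by
  have q1 := Wt_eqn.mp h1.1
  have q2 := Wt_eqn.mp h1'.1
  by_cases hx : x1 = x2
  · subst hx
    have hyy : y1 = y2 ∨ y1 = -y2 := by
      apply sq_eq_sq_iff_eq_or_eq_neg.mp
      rw [q1, q2]
    have hsame : al a b (Affine.Point.some x1 y1 h1 : (Wt a b).toAffine.Point) =
        al a b (Affine.Point.some x1 y2 h1') := rfl
    rw [hsame]
    refine IsSquare.mul ?_ ⟨_, rfl⟩
    by_cases hneg : y1 = (Wt a b).toAffine.negY x1 y2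
    · rw [Affine.Point.add_of_Y_eq rfl hneg]
      exact ⟨1, by change (1 : K) = 1 * 1; rw [one_mul]⟩
    · have hy12 : y1 = y2 := by
        rcases hyy with h | h
        · exact h
        · exact absurd (by simp only [Affine.negY, Wt]; linear_combination h) hneg
      subst hy12
      rw [Affine.Point.add_self_of_Y_ne hneg, al_some]
      have hy0 : y1 ≠ 0 := by
        intro h
        apply hneg
        simp only [Affine.negY, Wt]
        rw [h]; ring
      have h2y : 2 * y1 ≠ 0 := mul_ne_zero h2 hy0
      set s := (Wt a b).toAffine.slope x1 x1 y1 y1 with hs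
      have hslope : s * (2 * y1) = 3 * x1 ^ 2 + 2 * a * x1 + b := by
        rw [hs, Affine.slope_of_Y_ne rfl hneg]
        simp only [Affine.negY, Wt]
        have e3' : y1 - (-y1 - 0 * x1 - 0) = 2 * y1 := by ring
        rw [e3', div_mul_cancel₀ _ h2y]
        ring
      have hX : (Wt a b).toAffine.addX x1 x1 s = s ^ 2 - a - 2 * x1 := by
        simp only [Affine.addX, Wt]; ring
      rw [hX]
      -- key identity
      have key : (s ^ 2 - a - 2 * x1) * (2 * y1) ^ 2 = (x1 ^ 2 - b) ^ 2 := by
        have h5 : (s * (2 * y1)) ^ 2 = (3 * x1 ^ 2 + 2 * a * x1 + b) ^ 2 := by rw [hslope]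
        linear_combination h5 + (-4 * a - 8 * x1) * q1
      split_ifs with hx3
      · rw [hx3, zero_mul] at key
        have h6 : x1 ^ 2 = b := by
          have := pow_eq_zero_iff (two_ne_zero) |>.1 key.symm
          exact sub_eq_zero.1 this
        exact ⟨x1, by rw [← h6, sq]⟩
      · refine ⟨(x1 ^ 2 - b) / (2 * y1), ?_⟩
        rw [div_mul_div_comm, ← sq, ← sq, ← key, mul_div_assoc, div_self (pow_ne_zero 2 h2y),
          mul_one]
  · have hx' : x1 - x2 ≠ 0 := sub_ne_zero.mpr hx
    rw [Affine.Point.add_of_X_ne hx, al_some, al_some, al_some]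
    set s := (Wt a b).toAffine.slope x1 x2 y1 y2 with hs
    have hslope : s * (x1 - x2) = y1 - y2 := by
      rw [hs, Affine.slope_of_X_ne hx, div_mul_cancel₀ _ hx']
    have hX : (Wt a b).toAffine.addX x1 x2 s = s ^ 2 - a - x1 - x2 := by
      simp only [Affine.addX, Wt]; ring
    rw [hX]
    set x3 := s ^ 2 - a - x1 - x2 with hx3
    have hs2 : s ^ 2 * (x1 - x2) ^ 2 = (y1 - y2) ^ 2 := by rw [← mul_pow, hslope]
    have key : x3 * (x1 * x2) = (y1 - s * x1) ^ 2 := by
      have h5 : x3 * (x1 * x2) * (x1 - x2) ^ 2 = (y1 - s * x1) ^ 2 * (x1 - x2) ^ 2 := by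
        rw [hx3]
        have e1 : (s ^ 2 - a - x1 - x2) * (x1 * x2) * (x1 - x2) ^ 2 =
            (s ^ 2 * (x1 - x2) ^ 2 + (- a - x1 - x2) * (x1 - x2) ^ 2) * (x1 * x2) := by
          ring
        have e2 : (y1 - s * x1) ^ 2 * (x1 - x2) ^ 2 =
            (y1 * (x1 - x2) - s * (x1 - x2) * x1) ^ 2 := by ring
        rw [e1, e2, hs2, hslope]
        linear_combination (x2 * (x1 - x2)) * q1 - (x1 * (x1 - x2)) * q2
      exact mul_right_cancel₀ (pow_ne_zero 2 hx') h5
    by_cases hx1 : x1 = 0
    · have hx2 : x2 ≠ 0 := fun h => hx (hx1.trans h.symm)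
      have hy1 : y1 = 0 := by
        have : y1 ^ 2 = 0 := by rw [q1, hx1]; ring
        exact pow_eq_zero_iff (two_ne_zero) |>.1 this
      have h6 : x3 * x2 = b := by
        have h7 : x3 * x2 * (x1 - x2) ^ 2 = b * (x1 - x2) ^ 2 := by
          rw [hx3]
          have e1 : (s ^ 2 - a - x1 - x2) * x2 * (x1 - x2) ^ 2 =
              (s ^ 2 * (x1 - x2) ^ 2 + (- a - x1 - x2) * (x1 - x2) ^ 2) * x2 := by ring
          rw [e1, hs2, hx1, hy1]
          linear_combination x2 * q2
        exact mul_right_cancel₀ (pow_ne_zero 2 hx') h7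
      rw [if_pos hx1, if_neg hx2]
      by_cases h8 : x3 = 0
      · rw [if_pos h8]
        rw [h8, zero_mul] at h6
        rw [← h6]
        exact ⟨0, by ring⟩
      · rw [if_neg h8]
        refine ⟨b, ?_⟩
        linear_combination b * h6
    · by_cases hx2 : x2 = 0
      · have hy2 : y2 = 0 := by
          have : y2 ^ 2 = 0 := by rw [q2, hx2]; ring
          exact pow_eq_zero_iff (two_ne_zero) |>.1 this
        have h6 : x3 * x1 = b := by
          have h7 : x3 * x1 * (x1 - x2) ^ 2 = b * (x1 - x2) ^ 2 := by
            rw [hx3]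
            have e1 : (s ^ 2 - a - x1 - x2) * x1 * (x1 - x2) ^ 2 =
                (s ^ 2 * (x1 - x2) ^ 2 + (- a - x1 - x2) * (x1 - x2) ^ 2) * x1 := by ring
            rw [e1, hs2, hx2, hy2]
            linear_combination x1 * q1
          exact mul_right_cancel₀ (pow_ne_zero 2 hx') h7
        rw [if_neg hx1, if_pos hx2]
        by_cases h8 : x3 = 0
        · rw [if_pos h8]
          rw [h8, zero_mul] at h6
          rw [← h6]
          exact ⟨0, by ring⟩
        · rw [if_neg h8]
          refine ⟨b, ?_⟩
          linear_combination b * h6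
      · rw [if_neg hx1, if_neg hx2]
        by_cases h8 : x3 = 0
        · rw [if_pos h8]
          have hL : y1 - s * x1 = 0 := by
            have := key
            rw [h8, zero_mul] at this
            exact pow_eq_zero_iff (two_ne_zero) |>.1 this.symm
          have hs2' : s ^ 2 = a + x1 + x2 := by
            have : s ^ 2 - a - x1 - x2 = 0 := by rw [← hx3]; exact h8
            linear_combination this
          have h9 : x1 * (x1 * x2) = x1 * b := by
            have h10 : y1 ^ 2 = s ^ 2 * x1 ^ 2 := by
              have : y1 = s * x1 := by linear_combination hL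
              rw [this]; ring
            rw [q1, hs2'] at h10
            linear_combination -h10
          have h13 := mul_left_cancel₀ hx1 h9
          rw [h13]
          exact ⟨_, rfl⟩
        · rw [if_neg h8]
          exact ⟨y1 - s * x1, by rw [key, sq]⟩

/-- the map `x` modulo squares is a homomorphism -/
theorem al_add (h2 : (2 : K) ≠ 0) {a b : K} (P Q : (Wt a b).toAffine.Point) :
    IsSquare (al a b (P + Q) * (al a b P * al a b Q)) := by
  cases P with
  | zero =>
    change IsSquare (al a b (0 + Q) * (1 * al a b Q))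
    rw [zero_add, one_mul]
    exact ⟨_, rfl⟩
  | some x1 y1 h1 =>
    cases Q with
    | zero =>
      change IsSquare (al a b (Affine.Point.some x1 y1 h1 + 0) *
        (al a b (Affine.Point.some x1 y1 h1) * 1))
      rw [add_zero, mul_one]
      exact ⟨_, rfl⟩
    | some x2 y2 h1' => exact al_add_some h2 h1 h1'

end Pool.Agent.Y668
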